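import Pool.Agent.H380.AG.Stm

/-!
# The limit `r → 1` of the pair sums without the angle `α` is zero
-/

set_option autoImplicit false

open MeasureTheory Metric Set Filter Topology
open scoped ENNReal RealInnerProductSpace

namespace Pool.Agent.H746.AG

open Pool.Agent.W778.AG Pool.Agent.H380.AG

namespace A1

lemma pg_succ (n k : ℕ) (t : ℝ) : Pg n (k + 2) t =
    ((2 * (k : ℝ) + n) * t * Pg n (k + 1) t - ((k : ℝ) + 1) * Pg n k t) / ((k : ℝ) + n - 1) := by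
  rw [Pg]

lemma pg_cont (n k : ℕ) : Continuous (Pg n k) := by
  have h : ∀ k, Continuous (Pg n k) ∧ Continuous (Pg n (k + 1)) := by
    intro k
    induction k with
    | zero =>
      constructor
      · have : Pg n 0 = fun _ => 1 := by funext t; rw [Pg]
        rw [this]
        exact continuous_const
      · have : Pg n (0 + 1) = fun t => t := by funext t; rw [Pg]
        rw [this]
        exact continuous_id
    | succ k ih =>
      refine ⟨ih.2, ?_⟩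
      have : Pg n (k + 1 + 1) = fun t => ((2 * (k : ℝ) + n) * t * Pg n (k + 1) t -
          ((k : ℝ) + 1) * Pg n k t) / ((k : ℝ) + n - 1) := by
        funext t
        exact pg_succ n k t
      rw [this]
      have h1 := ih.1
      have h2 := ih.2
      fun_prop
  exact (h k).1

lemma pg_one {n : ℕ} (hn : 3 ≤ n) (k : ℕ) : Pg n k 1 = 1 := by
  have hn' : (3 : ℝ) ≤ n := by exact_mod_cast hn
  have h : ∀ k, Pg n k 1 = 1 ∧ Pg n (k + 1) 1 = 1 := by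
    intro k
    induction k with
    | zero =>
      constructor
      · rw [Pg]
      · rw [Pg]
    | succ k ih =>
      refine ⟨ih.2, ?_⟩
      rw [show k + 1 + 1 = k + 2 from rfl, pg_succ, ih.1, ih.2]
      have h1 : (k : ℝ) + n - 1 ≠ 0 := by
        have : (0 : ℝ) ≤ k := Nat.cast_nonneg k
        linarith
      rw [div_eq_one_iff_eq h1]
      ring
  exact (h k).1

lemma wf_nonneg (α φ : ℝ) : 0 ≤ wf α φ := Real.sqrt_nonneg _

lemma wf_le (α φ : ℝ) : wf α φ ≤ 1 := by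
  unfold wf
  apply Real.sqrt_le_one.2
  have := sq_nonneg (Real.sin α * Real.sin φ)
  linarith

lemma pg_le (hB : S_BD) {n : ℕ} (hn : 3 ≤ n) (k : ℕ) {t : ℝ} (ht : |t| ≤ 1) :
    |Pg n k t| ≤ 1 := by
  have h1 := abs_le.1 ht
  have h2 := hB n k hn (Real.arccos t)
  rw [Real.cos_arccos h1.1 h1.2] at h2
  refine h2.trans ?_
  unfold Pool.Agent.W778.AG.LE
  have hpos : 0 < ∫ φ in (0 : ℝ)..Real.pi, Real.sin φ ^ (n - 3) := integral_sin_pow_pos _
  rw [div_le_one hpos]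
  refine intervalIntegral.integral_mono_on Real.pi_pos.le ?_ ?_ ?_
  · apply Continuous.intervalIntegrable
    unfold wf
    fun_prop
  · apply Continuous.intervalIntegrable
    fun_prop
  · intro φ hφ
    have h3 : 0 ≤ Real.sin φ ^ (n - 3) := pow_nonneg (Real.sin_nonneg_of_mem_Icc hφ) _
    have h4 : wf (Real.arccos t) φ ^ k ≤ 1 := pow_le_one₀ (wf_nonneg _ _) (wf_le _ _)
    nlinarith

lemma dk_nonneg {n : ℕ} (hn : 3 ≤ n) (k : ℕ) : 0 ≤ dk n k := by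
  unfold dk
  have hn' : (3 : ℝ) ≤ n := by exact_mod_cast hn
  have h0 : (0 : ℝ) ≤ k := Nat.cast_nonneg k
  apply mul_nonneg
  · apply div_nonneg <;> linarith
  · exact Nat.cast_nonneg _

lemma summ (h3 : S_SUM) {n : ℕ} (hn : 3 ≤ n) {r : ℝ} (hr : 0 ≤ r) (hr1 : r < 1) :
    Summable fun k : ℕ => r ^ k * dk n k := by
  have h := (h3 n hn r hr hr1 1 (by simp)).summable
  refine h.congr fun k => ?_
  rw [pg_one hn, mul_one]

/-- interchange of sum and integral -/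
lemma inter (h3 : S_SUM) (hB : S_BD) {n : ℕ} (hn : 3 ≤ n) {r : ℝ} (hr : 0 ≤ r) (hr1 : r < 1)
    {Ω : Type} [MeasurableSpace Ω] (P : Measure Ω) [IsProbabilityMeasure P] (g : Ω → ℝ)
    (hg : Measurable g) (hg1 : ∀ᵐ x ∂P, |g x| ≤ 1) (c : ℕ → ℝ) (hc : ∀ k, |c k| ≤ 1) :
    HasSum (fun k => r ^ k * dk n k * (c k * ∫ x, Pg n k (g x) ∂P))
      (∫ x, ∑' k, r ^ k * dk n k * (c k * Pg n k (g x)) ∂P) := by
  have hm : ∀ k, Measurable fun x => Pg n k (g x) := fun k => (pg_cont n k).measurable.comp hg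
  have hint : ∀ k, Integrable (fun x => Pg n k (g x)) P := by
    intro k
    refine Integrable.of_bound (C := 1) (hm k).aestronglyMeasurable ?_
    filter_upwards [hg1] with x hx
    exact pg_le hB hn k hx
  have hb : ∀ k, ∫ x, ‖r ^ k * dk n k * (c k * Pg n k (g x))‖ ∂P ≤ r ^ k * dk n k := by
    intro k
    have h0 : 0 ≤ r ^ k * dk n k := mul_nonneg (pow_nonneg hr k) (dk_nonneg hn k)
    have h1 : ∀ᵐ x ∂P, ‖‖r ^ k * dk n k * (c k * Pg n k (g x))‖‖ ≤ r ^ k * dk n k := by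
      filter_upwards [hg1] with x hx
      rw [norm_norm, norm_mul (r ^ k * dk n k), norm_mul (c k), Real.norm_eq_abs (r ^ k * dk n k),
        abs_of_nonneg h0]
      have h2 : ‖c k‖ * ‖Pg n k (g x)‖ ≤ 1 * 1 :=
        mul_le_mul (hc k) (pg_le hB hn k hx) (norm_nonneg _) zero_le_one
      nlinarith
    have h2 := norm_integral_le_of_norm_le_const h1
    rw [probReal_univ, mul_one] at h2
    exact (le_abs_self _).trans h2
  have h := hasSum_integral_of_summable_integral_norm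
    (F := fun k x => r ^ k * dk n k * (c k * Pg n k (g x))) (μ := P)
    (fun k => ((hint k).const_mul (c k)).const_mul _)
    (Summable.of_nonneg_of_le (fun k => integral_nonneg fun x => norm_nonneg _) hb
      (summ h3 hn hr hr1))
  have e : (fun k => r ^ k * dk n k * (c k * ∫ x, Pg n k (g x) ∂P)) =
      fun k => ∫ x, r ^ k * dk n k * (c k * Pg n k (g x)) ∂P := by
    funext k
    rw [integral_const_mul, integral_const_mul]
  rw [e]
  exact h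

lemma pk_nonneg {n : ℕ} {r : ℝ} (hr : 0 ≤ r) (hr1 : r < 1) (t : ℝ) : 0 ≤ pk n r t := by
  unfold pk
  apply div_nonneg
  · nlinarith
  · exact pow_nonneg (Real.sqrt_nonneg _) _

/-- the kernel -/
noncomputable def Kr (n : ℕ) (α r t : ℝ) : ℝ :=
  ∑' k : ℕ, r ^ k * dk n k * (Pg n k (Real.cos α) * Pg n k t)

lemma ae_sphere {n : ℕ} {μ : Measure (En n)} (h : Sph μ) : ∀ᵐ w ∂μ, ‖w‖ = 1 := by
  rw [ae_iff]
  refine measure_mono_null ?_ h.2
  intro w hw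
  simpa using hw

lemma Kr_nonneg (h1 : S_AVG) (h3 : S_SUM) (hB : S_BD) {n : ℕ} (hn : 3 ≤ n) {r : ℝ} (hr : 0 ≤ r)
    (hr1 : r < 1) (α : ℝ) {u v : En n} (hu : ‖u‖ = 1) (hv : ‖v‖ = 1) :
    0 ≤ Kr n α r ⟪u, v⟫ := by
  obtain ⟨ρ, hρ, -, hρ2⟩ := h1 n hn v α hv
  have hP : IsProbabilityMeasure ρ := hρ.1
  have hg : Measurable fun w : En n => (⟪w, u⟫ : ℝ) := by fun_prop
  have hg1 : ∀ᵐ w ∂ρ, |(⟪w, u⟫ : ℝ)| ≤ 1 := by
    filter_upwards [ae_sphere hρ] with w hw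
    have := abs_real_inner_le_norm w u
    rwa [hw, hu, mul_one] at this
  have h := inter h3 hB hn hr hr1 ρ (fun w => ⟪w, u⟫) hg hg1 (fun _ => 1) (fun _ => by simp)
  have e : (fun k : ℕ => r ^ k * dk n k * ((1 : ℝ) * ∫ w, Pg n k ⟪w, u⟫ ∂ρ)) =
      fun k => r ^ k * dk n k * (Pg n k (Real.cos α) * Pg n k ⟪u, v⟫) := by
    funext k
    rw [one_mul, hρ2 k u hu, real_inner_comm]
  rw [e] at h
  unfold Kr
  rw [h.tsum_eq]
  apply integral_nonneg_of_ae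
  filter_upwards [hg1] with w hw
  have h5 := h3 n hn r hr hr1 ⟪w, u⟫ hw
  have h6 : ∑' k : ℕ, r ^ k * dk n k * (1 * Pg n k ⟪w, u⟫) = pk n r ⟪w, u⟫ := by
    rw [← h5.tsum_eq]
    refine tsum_congr fun k => ?_
    rw [one_mul]
  rw [h6]
  exact pk_nonneg hr hr1 _

lemma Kr_le (h2 : S_CONC) {n : ℕ} (hn : 3 ≤ n) {r : ℝ} (hr : 0 ≤ r) (hr1 : r < 1) {α t m : ℝ}
    (hα : 0 ≤ α) (hα1 : α ≤ Real.pi) (ht : |t| ≤ 1) (hm : 0 ≤ m) (hm1 : m < 1)
    (hc : Real.cos (Real.arccos t - α) ≤ m) :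
    Kr n α r t ≤ (1 - r ^ 2) / Real.sqrt (1 - m ^ 2) ^ n := by
  have ht1 := abs_le.1 ht
  have h := h2 n hn r hr hr1 α (Real.arccos t) hα hα1 (Real.arccos_nonneg t) (Real.arccos_le_pi t)
  rw [Real.cos_arccos ht1.1 ht1.2] at h
  refine h.trans ?_
  have h4 : 0 < 1 - m ^ 2 := by nlinarith
  have h5 : 1 - m ^ 2 ≤ 1 - 2 * r * Real.cos (Real.arccos t - α) + r ^ 2 := by
    have : r * Real.cos (Real.arccos t - α) ≤ r * m := mul_le_mul_of_nonneg_left hc hr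
    nlinarith [sq_nonneg (r - m)]
  have h6 : 0 < Real.sqrt (1 - m ^ 2) ^ n := pow_pos (Real.sqrt_pos.2 h4) n
  apply div_le_div_of_nonneg_left _ h6
  · exact pow_le_pow_left₀ (Real.sqrt_nonneg _) (Real.sqrt_le_sqrt h5) n
  · nlinarith

/-- the separation -/
lemma sep {n : ℕ} {α : ℝ} (hα : 0 < α) (hα1 : α < Real.pi) {F F' : Set (En n)}
    (hF : IsCompact F) (hF' : IsCompact F') (hFn : F.Nonempty) (hFn' : F'.Nonempty)
    (hin : ∀ u ∈ F, ∀ v ∈ F', |(⟪u, v⟫ : ℝ)| ≤ 1)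
    (hne : ∀ u ∈ F, ∀ v ∈ F', (⟪u, v⟫ : ℝ) ≠ Real.cos α) :
    ∃ m : ℝ, 0 ≤ m ∧ m < 1 ∧ ∀ u ∈ F, ∀ v ∈ F', Real.cos (Real.arccos ⟪u, v⟫ - α) ≤ m := by
  have hcont : Continuous fun p : En n × En n => Real.cos (Real.arccos (⟪p.1, p.2⟫ : ℝ) - α) := by
    have h1 : Continuous fun p : En n × En n => Real.arccos (⟪p.1, p.2⟫ : ℝ) :=
      Real.continuous_arccos.comp (by fun_prop)
    exact Real.continuous_cos.comp (h1.sub continuous_const)
  obtain ⟨p, hp, hmax⟩ := (hF.prod hF').exists_isMaxOn (hFn.prod hFn') hcont.continuousOn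
  refine ⟨max 0 (Real.cos (Real.arccos (⟪p.1, p.2⟫ : ℝ) - α)), le_max_left _ _,
    max_lt one_pos ?_, fun u hu v hv => ?_⟩
  · have hu0 : p.1 ∈ F := hp.1
    have hv0 : p.2 ∈ F' := hp.2
    have h1 := Real.arccos_nonneg (⟪p.1, p.2⟫ : ℝ)
    have h2 := Real.arccos_le_pi (⟪p.1, p.2⟫ : ℝ)
    refine lt_of_le_of_ne (Real.cos_le_one _) fun h3 => ?_
    have h4 := (Real.cos_eq_one_iff_of_lt_of_lt
      (by linarith [Real.pi_pos]) (by linarith [Real.pi_pos])).1 h3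
    apply hne _ hu0 _ hv0
    have h5 : Real.arccos (⟪p.1, p.2⟫ : ℝ) = α := by linarith
    have h6 := abs_le.1 (hin _ hu0 _ hv0)
    rw [← h5, Real.cos_arccos h6.1 h6.2]
  · have h := hmax (show (u, v) ∈ F ×ˢ F' from ⟨hu, hv⟩)
    exact le_trans h (le_max_right _ _)

/-- almost all pairs are in the product of the two sets -/
lemma ae_pair {n : ℕ} (μ μ' : Measure (En n)) [SFinite μ] [SFinite μ'] {F F' : Set (En n)}
    (hFμ : μ Fᶜ = 0) (hFμ' : μ' F'ᶜ = 0) : ∀ᵐ p ∂(μ.prod μ'), p.1 ∈ F ∧ p.2 ∈ F' := by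
  rw [ae_iff]
  have hsub : {p : En n × En n | ¬ (p.1 ∈ F ∧ p.2 ∈ F')} ⊆ Fᶜ ×ˢ univ ∪ univ ×ˢ F'ᶜ := by
    rintro ⟨u, v⟩ h
    by_cases hu : u ∈ F
    · right
      exact ⟨trivial, fun hv => h ⟨hu, hv⟩⟩
    · left
      exact ⟨hu, trivial⟩
  refine measure_mono_null hsub (measure_union_null ?_ ?_)
  · rw [Measure.prod_prod, hFμ, zero_mul]
  · rw [Measure.prod_prod, hFμ', mul_zero]

/-- the pair integral as an integral over the product -/
lemma fm_prod (hB : S_BD) {n : ℕ} (hn : 3 ≤ n) (k : ℕ) (μ μ' : Measure (En n))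
    [IsProbabilityMeasure μ] [IsProbabilityMeasure μ']
    (hg1 : ∀ᵐ p : En n × En n ∂(μ.prod μ'), |(⟪p.1, p.2⟫ : ℝ)| ≤ 1) :
    fm n k μ μ' = ∫ p : En n × En n, Pg n k ⟪p.1, p.2⟫ ∂(μ.prod μ') := by
  have hg : Measurable fun p : En n × En n => (⟪p.1, p.2⟫ : ℝ) := by fun_prop
  unfold fm
  rw [integral_prod]
  refine Integrable.of_bound (C := 1) ((pg_cont n k).measurable.comp hg).aestronglyMeasurable ?_
  filter_upwards [hg1] with p hp
  exact pg_le hB hn k hp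

/-- the limit of the bound -/
lemma lim0 (n : ℕ) (m : ℝ) :
    Tendsto (fun r : ℝ => (1 - r ^ 2) / Real.sqrt (1 - m ^ 2) ^ n) (𝓝[<] 1) (𝓝 0) := by
  have h1 : Continuous fun r : ℝ => (1 - r ^ 2) / Real.sqrt (1 - m ^ 2) ^ n := by fun_prop
  have h2 := (h1.tendsto 1).mono_left (nhdsWithin_le_nhds (s := Iio (1 : ℝ)))
  simpa using h2

/-- the bound -/
lemma key (h1 : S_AVG) (h2 : S_CONC) (h3 : S_SUM) (hB : S_BD) {n : ℕ} (hn : 3 ≤ n) {α : ℝ}
    (hα : 0 ≤ α) (hα1 : α ≤ Real.pi) (μ μ' : Measure (En n))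
    [IsProbabilityMeasure μ] [IsProbabilityMeasure μ'] {F F' : Set (En n)}
    (hFs : F ⊆ sphere 0 1) (hFs' : F' ⊆ sphere 0 1)
    (hae : ∀ᵐ p ∂(μ.prod μ'), p.1 ∈ F ∧ p.2 ∈ F')
    (hin : ∀ u ∈ F, ∀ v ∈ F', |(⟪u, v⟫ : ℝ)| ≤ 1) {m : ℝ} (hm0 : 0 ≤ m) (hm1 : m < 1)
    (hm : ∀ u ∈ F, ∀ v ∈ F', Real.cos (Real.arccos ⟪u, v⟫ - α) ≤ m)
    {r : ℝ} (hr : 0 ≤ r) (hr1 : r < 1) :
    ‖∑' k : ℕ, r ^ k * dk n k * (Pg n k (Real.cos α) * fm n k μ μ')‖ ≤
        (1 - r ^ 2) / Real.sqrt (1 - m ^ 2) ^ n := by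
  have hg : Measurable fun p : En n × En n => (⟪p.1, p.2⟫ : ℝ) := by fun_prop
  have hg1 : ∀ᵐ p : En n × En n ∂(μ.prod μ'), |(⟪p.1, p.2⟫ : ℝ)| ≤ 1 := by
    filter_upwards [hae] with p hp
    exact hin _ hp.1 _ hp.2
  have h := inter h3 hB hn hr hr1 (μ.prod μ') (fun p => ⟪p.1, p.2⟫) hg hg1
    (fun k => Pg n k (Real.cos α)) (fun k => pg_le hB hn k (Real.abs_cos_le_one α))
  have e : (fun k : ℕ => r ^ k * dk n k * (Pg n k (Real.cos α) *
      ∫ p : En n × En n, Pg n k ⟪p.1, p.2⟫ ∂(μ.prod μ'))) =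
      fun k => r ^ k * dk n k * (Pg n k (Real.cos α) * fm n k μ μ') := by
    funext k
    rw [fm_prod hB hn k μ μ' hg1]
  rw [e] at h
  rw [h.tsum_eq]
  have h5 : ∀ᵐ p : En n × En n ∂(μ.prod μ'), ‖∑' k : ℕ, r ^ k * dk n k * (Pg n k (Real.cos α) *
      Pg n k ⟪p.1, p.2⟫)‖ ≤ (1 - r ^ 2) / Real.sqrt (1 - m ^ 2) ^ n := by
    filter_upwards [hae] with p hp
    have hu := mem_sphere_zero_iff_norm.1 (hFs hp.1)
    have hv := mem_sphere_zero_iff_norm.1 (hFs' hp.2)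
    have h6 : 0 ≤ Kr n α r ⟪p.1, p.2⟫ := Kr_nonneg h1 h3 hB hn hr hr1 α hu hv
    have h7 := Kr_le h2 hn hr hr1 hα hα1 (hin _ hp.1 _ hp.2) hm0 hm1 (hm _ hp.1 _ hp.2)
    rw [Real.norm_eq_abs]
    change |Kr n α r ⟪p.1, p.2⟫| ≤ _
    rw [abs_of_nonneg h6]
    exact h7
  have h8 := norm_integral_le_of_norm_le_const h5
  rwa [probReal_univ, mul_one] at h8

end A1

open A1

/-- **A1.** -/
theorem t_A1 (h1 : S_AVG) (h2 : S_CONC) (h3 : S_SUM) (hB : S_BD) : S_A1 := by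
  intro n α μ μ' F F' hn hα hα1 hμ hμ' hF hF' hFs hFs' hFμ hFμ' hne
  have hP : IsProbabilityMeasure μ := hμ.1
  have hP' : IsProbabilityMeasure μ' := hμ'.1
  have hFn : F.Nonempty := by
    by_contra h
    rw [Set.not_nonempty_iff_eq_empty] at h
    rw [h, Set.compl_empty, measure_univ] at hFμ
    exact one_ne_zero hFμ
  have hFn' : F'.Nonempty := by
    by_contra h
    rw [Set.not_nonempty_iff_eq_empty] at h
    rw [h, Set.compl_empty, measure_univ] at hFμ'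
    exact one_ne_zero hFμ'
  have hin : ∀ u ∈ F, ∀ v ∈ F', |(⟪u, v⟫ : ℝ)| ≤ 1 := by
    intro u hu v hv
    have h := abs_real_inner_le_norm u v
    rw [mem_sphere_zero_iff_norm.1 (hFs hu), mem_sphere_zero_iff_norm.1 (hFs' hv), mul_one] at h
    exact h
  obtain ⟨m, hm0, hm1, hm⟩ := sep hα hα1 hF hF' hFn hFn' hin hne
  have hae := ae_pair μ μ' hFμ hFμ'
  have hkey : ∀ r : ℝ, 0 ≤ r → r < 1 →
      ‖∑' k : ℕ, r ^ k * dk n k * (Pg n k (Real.cos α) * fm n k μ μ')‖ ≤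
        (1 - r ^ 2) / Real.sqrt (1 - m ^ 2) ^ n := fun r hr hr1 =>
    key h1 h2 h3 hB hn hα.le hα1.le μ μ' hFs hFs' hae hin hm0 hm1 hm hr hr1
  refine squeeze_zero_norm' ?_ (lim0 n m)
  have h01 : ∀ᶠ r : ℝ in 𝓝[<] 1, 0 ≤ r ∧ r < 1 := by
    have h1 : ∀ᶠ r : ℝ in 𝓝[<] 1, (0 : ℝ) < r :=
      (eventually_gt_nhds one_pos).filter_mono nhdsWithin_le_nhds
    filter_upwards [h1, self_mem_nhdsWithin] with r hr hr1
    exact ⟨hr.le, hr1⟩
  filter_upwards [h01] with r hr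
  exact hkey r hr.1 hr.2

end Pool.Agent.H746.AG
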